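import Pool.Agent.P.MP_909498_an.Bilateral

/-!
An overcomplete frame sequence `U ^ k (g j)`, with `U` unitary, infinitely many generators and norms
bounded below, has no ordering by the integers represented by a bounded operator.
-/

open scoped InnerProductSpace

namespace Pool.Agent.Results.MP_909498_an.BilateralOrdering

open Pool.Agent.P.MP_909498_an

theorem result {H J : Type} [NormedAddCommGroup H] [InnerProductSpace ℂ H] [CompleteSpace H]
    [Infinite J] (U : H ≃ₗᵢ[ℂ] H) (g : J → H) (c : ℝ) (hc : 0 < c) (hg : ∀ j, c ≤ ‖g j‖)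
    (hf : IsFrameSeq fun p : ℤ × J => (U ^ p.1) (g p.2))
    (hR : ¬IsRieszSeq fun p : ℤ × J => (U ^ p.1) (g p.2)) (σ : ℤ ≃ ℤ × J) :
    ¬BddRep (fun n : ℤ => (U ^ (σ n).1) (g (σ n).2)) fun n => n + 1 := by
  refine bilateral (f := fun p : ℤ × J => (U ^ p.1) (g p.2)) (fun k j k' j' t => ?_) hc
    (fun p => ?_) hf hR σ
  · simp only [add_comm _ t, zpow_add, LinearIsometryEquiv.coe_mul, Function.comp_apply,
      LinearIsometryEquiv.inner_map_map]
  · rw [LinearIsometryEquiv.norm_map]
    exact hg _

end Pool.Agent.Results.MP_909498_an.BilateralOrdering
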