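import Pool.Agent.P.MP_909498_an.Wt.E

/-!
Classification of the injective index maps `τ` and weights `w` bounded below for which
`U ^ k φ ↦ w k • U ^ (τ k) φ` is bounded, for an overcomplete frame sequence `U ^ k φ` with `U`
unitary.
-/

open scoped InnerProductSpace

namespace Pool.Agent.Results.MP_909498_an.WeightedReindexing

open Pool.Agent.P.MP_909498_an Pool.Agent.P.MP_909498_an.Wt

theorem result {H : Type} [NormedAddCommGroup H] [InnerProductSpace ℂ H] [CompleteSpace H]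
    (U : H ≃ₗᵢ[ℂ] H) (φ : H) (hφ : φ ≠ 0) (hf : IsFrameSeq fun k : ℤ => (U ^ k) φ)
    (hR : ¬IsRieszSeq fun k : ℤ => (U ^ k) φ) :
    ∃ d : ℕ, 0 < d ∧ ∀ (τ : ℤ → ℤ) (w : ℤ → ℂ) (δ : ℝ), Function.Injective τ → 0 < δ →
      (∀ k, δ ≤ ‖w k‖) → (WRep (fun k : ℤ => (U ^ k) φ) τ w ↔ ∀ k : ℤ,
        (∀ t : ℤ, τ (k + d * t) = τ k + d * t ∧ w (k + d * t) = w k) ∨
          ∃ γ : ℂ, ‖γ‖ = 1 ∧ WRep (fun k : ℤ => (U ^ k) φ) (fun n => -n) (fun n => γ ^ n) ∧
            ∀ t : ℤ, τ (k + d * t) = τ k - d * t ∧ w (k + d * t) = w k * γ ^ (d * t : ℤ)) := by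
  refine classify_w (fun j k t => ?_) (by simpa using hφ) hf hR
  simp only [add_comm _ t, zpow_add, LinearIsometryEquiv.coe_mul, Function.comp_apply,
    LinearIsometryEquiv.inner_map_map]

end Pool.Agent.Results.MP_909498_an.WeightedReindexing
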